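import Pool.Agent.N20.AE.Stm
import Pool.Agent.N342.DIINV1
import Pool.Agent.Y858.NV.Wdef
import Pool.Agent.Y63.KR.Basic

set_option autoImplicit false

/-!
# The separating invariant class function in the ideal of a defect group
-/

open scoped Classical BigOperators

set_option linter.unusedSectionVars false
set_option linter.style.haveILetI false

noncomputable section

namespace Pool.Agent.N323.AEZE

open Pool.Agent.Y63.NV
open Pool.Agent.Y63.KR
open Pool.Agent.Y405.NV
open Pool.Agent.Y858.NV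
open Pool.Agent.N20.AE

section

variable {F : Type} [Field F] {G K : Type} [Group G] [Group K] [Finite G] [Finite K] (i : G →* K)
  (hi : Function.Injective i) (hn : i.range.Normal)

/-- the automorphism of `G` given by conjugation with `k` -/
def al (k : K) : G ≃* G :=
  haveI := hn
  ((MonoidHom.ofInjective hi).trans (MulAut.conjNormal (H := i.range) k)).trans
    (MonoidHom.ofInjective hi).symm

lemma i_al (k : K) (x : G) : i (al i hi hn k x) = k * i x * k⁻¹ := by
  have := hn
  have h1 : (MonoidHom.ofInjective hi (al i hi hn k x) : i.range) =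
      MulAut.conjNormal (H := i.range) k (MonoidHom.ofInjective hi x) := by
    show MonoidHom.ofInjective hi ((MonoidHom.ofInjective hi).symm
      (MulAut.conjNormal (H := i.range) k (MonoidHom.ofInjective hi x))) = _
    rw [MulEquiv.apply_symm_apply]
  have h2 := congrArg Subtype.val h1
  rw [MulAut.conjNormal_apply] at h2
  exact h2

lemma al_symm_eq {k : K} {x y : G} (h : i y = k * i x * k⁻¹) : (al i hi hn k).symm y = x := by
  rw [MulEquiv.symm_apply_eq]
  apply hi
  rw [i_al, h]

/-- conjugation on the centre -/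
def sgK (k : K) : Subring.center (MonoidAlgebra F G) ≃+* Subring.center (MonoidAlgebra F G) :=
  Subring.centerCongr (MonoidAlgebra.domCongr F F (al i hi hn k)).toRingEquiv

lemma coeff_sgK (k : K) (z : Subring.center (MonoidAlgebra F G)) (x : G) :
    (sgK i hi hn k z).1.coeff x = z.1.coeff ((al i hi hn k).symm x) := by
  show (MonoidAlgebra.domCongr F F (al i hi hn k) z.1).coeff x = _
  rw [MonoidAlgebra.coeff_domCongr]

lemma sgK_sgK (g h : K) (z : Subring.center (MonoidAlgebra F G)) :
    sgK i hi hn g (sgK i hi hn h z) = sgK i hi hn (g * h) z := by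
  apply Subtype.ext
  ext x
  rw [coeff_sgK, coeff_sgK, coeff_sgK]
  congr 1
  symm
  apply al_symm_eq
  obtain ⟨y, hy⟩ := (al i hi hn g).surjective x
  obtain ⟨w, hw⟩ := (al i hi hn h).surjective y
  rw [← hy, MulEquiv.symm_apply_apply, ← hw, MulEquiv.symm_apply_apply, i_al, i_al]
  group

lemma sgK_one (z : Subring.center (MonoidAlgebra F G)) : sgK i hi hn 1 z = z := by
  apply Subtype.ext
  ext x
  rw [coeff_sgK]
  congr 1
  apply al_symm_eq
  group

/-- the norm -/
def nrK (z : Subring.center (MonoidAlgebra F G)) : Subring.center (MonoidAlgebra F G) :=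
  letI := Fintype.ofFinite K
  ∏ g : K, sgK i hi hn g z

lemma sgK_nrK (h : K) (z : Subring.center (MonoidAlgebra F G)) :
    sgK i hi hn h (nrK i hi hn z) = nrK i hi hn z := by
  letI := Fintype.ofFinite K
  unfold nrK
  rw [map_prod]
  simp only [sgK_sgK]
  exact Equiv.prod_comp (Equiv.mulLeft h)
    (fun g : K => (sgK i hi hn g z : Subring.center (MonoidAlgebra F G)))

lemma nrK_factor (z : Subring.center (MonoidAlgebra F G)) :
    ∃ r : Subring.center (MonoidAlgebra F G), nrK i hi hn z = z * r := by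
  letI := Fintype.ofFinite K
  refine ⟨∏ g ∈ Finset.univ.erase (1 : K), sgK i hi hn g z, ?_⟩
  have e3 : nrK i hi hn z = ∏ g : K, sgK i hi hn g z := rfl
  rw [e3, ← Finset.mul_prod_erase Finset.univ _ (Finset.mem_univ (1 : K)), sgK_one]

lemma toRH_nrK {B : (G → F) → F} (hB : IsBlock B)
    (hI : ∀ k : K, ∀ f f' : G → F, IsClassFun f →
      (∀ x y : G, i y = k * i x * k⁻¹ → f' y = f x) → B f' = B f)
    (z : Subring.center (MonoidAlgebra F G)) :
    toRH hB (nrK i hi hn z) = toRH hB z ^ Nat.card K := by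
  letI := Fintype.ofFinite K
  have h1 : ∀ k : K, toRH hB (sgK i hi hn k z) = toRH hB z := by
    intro k
    rw [toRH_apply, toRH_apply]
    refine hI k _ _ ((class_iff z.1).mp z.2) fun x y hxy => ?_
    rw [coeff_sgK, al_symm_eq i hi hn hxy]
  unfold nrK
  rw [map_prod]
  simp only [h1]
  rw [Finset.prod_const, Finset.card_univ, Nat.card_eq_fintype_card]

end

/-- the condition of Sylow type -/
lemma subD {p : ℕ} [Fact p.Prime] {G : Type} [Group G] [Finite G] {x0 : G} {D : Subgroup G}
    (hD : D ≤ Subgroup.centralizer {x0}) (hDp : IsPGroup p D)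
    (hc : (Nat.card D).factorization p =
      (Nat.card ↥(Subgroup.centralizer {x0})).factorization p)
    (S : Subgroup G) (hS : IsPGroup p S) (hSc : S ≤ Subgroup.centralizer {x0}) :
    ∃ g : G, conjSub g S ≤ D := by
  set C := Subgroup.centralizer {x0} with hC
  have hDp' : IsPGroup p (D.subgroupOf C) := hDp.comap_subtype
  obtain ⟨P, hP⟩ := hDp'.exists_le_sylow
  have hcard : Nat.card (D.subgroupOf C) = Nat.card P := by
    rw [P.card_eq_multiplicity, ← hc]
    have h1 : Nat.card (D.subgroupOf C) = Nat.card D :=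
      Nat.card_congr (Subgroup.subgroupOfEquivOfLe hD).toEquiv
    rw [h1]
    obtain ⟨n, hn⟩ := IsPGroup.iff_card.1 hDp
    rw [hn, Nat.factorization_pow, Finsupp.smul_apply, Nat.Prime.factorization_self Fact.out,
      smul_eq_mul, mul_one]
  have hDP : D.subgroupOf C = (P : Subgroup C) := by
    apply Subgroup.eq_of_le_of_card_ge hP
    rw [hcard]
  have hSp : IsPGroup p (S.subgroupOf C) := hS.comap_subtype
  obtain ⟨Q, hQ⟩ := hSp.exists_le_sylow
  obtain ⟨c, hc⟩ := MulAction.exists_smul_eq C Q P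
  refine ⟨(c : G), ?_⟩
  intro y hy
  rw [mem_conjSub] at hy
  have h1 : (⟨(c : G)⁻¹ * y * c, hSc hy⟩ : C) ∈ Q := hQ (Subgroup.mem_subgroupOf.2 hy)
  have h2 : c * ⟨(c : G)⁻¹ * y * c, hSc hy⟩ * c⁻¹ ∈ (c • Q : Sylow p C) := by
    exact ⟨⟨(c : G)⁻¹ * y * c, hSc hy⟩, h1, rfl⟩
  rw [hc] at h2
  have h3 : c * ⟨(c : G)⁻¹ * y * c, hSc hy⟩ * c⁻¹ ∈ D.subgroupOf C := by
    rw [hDP]
    exact h2
  have h4 := Subgroup.mem_subgroupOf.1 h3
  have h5 : ((c * ⟨(c : G)⁻¹ * y * c, hSc hy⟩ * c⁻¹ : C) : G) = y := by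
    show (c : G) * ((c : G)⁻¹ * y * c) * (c : G)⁻¹ = y
    group
  rw [h5] at h4
  exact h4

theorem ZE : S_ZE := by
  intro p _ F _ _ _ G K _ _ _ _ i B D hi hn hB hdef hI
  obtain ⟨x0, hx0, hmin, hD1, hD2, hD3⟩ := id hdef
  obtain ⟨e, he, hv, he1, hB1⟩ := Pool.Agent.N342.DI1.exists_idem hB
  set w0 : Subring.center (MonoidAlgebra F G) :=
    ofC (fun y : G => if IsConj x0 y then (1 : F) else 0) (isClassFun_conj x0) with hw0
  set e0 : Subring.center (MonoidAlgebra F G) := ofC e he with he0
  set w := nrK i hi hn (w0 * e0) with hw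
  obtain ⟨r, hr⟩ := nrK_factor i hi hn (w0 * e0)
  rw [← hw] at hr
  have hc : toRH hB (w0 * e0) = classValue B x0 := by
    rw [map_mul, hw0, he0, toRH_ofC, toRH_ofC, he1, mul_one]
    rfl
  have hwB : toRH hB w = classValue B x0 ^ Nat.card K := by
    rw [hw, toRH_nrK i hi hn hB hI, hc]
  set c : F := (classValue B x0 ^ Nat.card K)⁻¹ with hcdef
  have hcne : classValue B x0 ^ Nat.card K ≠ 0 := pow_ne_zero _ hx0
  set z : K → F := fun y => if h : ∃ x, i x = y then c * w.1.coeff h.choose else 0 with hz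
  have hzi : ∀ x : G, z (i x) = c * w.1.coeff x := by
    intro x
    have h : ∃ x', i x' = i x := ⟨x, rfl⟩
    show (if h : ∃ x', i x' = i x then c * w.1.coeff h.choose else 0) = _
    rw [dif_pos h, hi h.choose_spec]
  have hwcl : IsClassFun (fun x => w.1.coeff x) := (class_iff w.1).mp w.2
  have hBz : ∀ B' : (G → F) → F, ∀ hB' : IsBlock B', B' (fun x => z (i x)) = c * toRH hB' w := by
    intro B' hB'
    have h1 : (fun x => z (i x)) = c • (fun x => w.1.coeff x) := by
      funext x
      rw [hzi x]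
      rfl
    rw [h1, hB'.smul _ _ hwcl]
    rfl
  refine ⟨z, hi, hn, hB, hdef, hI, ?_, ?_, ?_, ?_, ?_⟩
  · intro g y
    by_cases hy : ∃ x, i x = y
    · obtain ⟨x, rfl⟩ := hy
      have h1 : g * i x * g⁻¹ = i (al i hi hn g x) := (i_al i hi hn g x).symm
      rw [h1, hzi, hzi]
      congr 1
      have h2 : (sgK i hi hn g⁻¹ w).1.coeff x = w.1.coeff x := by
        rw [hw, sgK_nrK]
      rw [← h2, coeff_sgK]
      congr 1
      symm
      apply al_symm_eq
      rw [i_al]
      group
    · have hy' : ¬ ∃ x, i x = g * y * g⁻¹ := by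
        rintro ⟨x, hx⟩
        apply hy
        refine ⟨al i hi hn g⁻¹ x, ?_⟩
        rw [i_al, hx]
        group
      rw [show z (g * y * g⁻¹) = 0 from dif_neg hy', show z y = 0 from dif_neg hy]
  · intro x hx
    exact dif_neg (fun h => hx h)
  · rw [hBz B hB, hwB, hcdef, inv_mul_cancel₀ hcne]
  · intro B' hB' h1 f hf
    have he2 : toRH hB' e0 = B' e := rfl
    rw [hBz B' hB', hr, map_mul, map_mul, he2] at h1
    have h2 : B' e ≠ 0 := by
      intro h0
      rw [h0] at h1
      simp at h1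
    exact (hB1 B' hB' ((hv B' hB').resolve_left h2) f hf).symm
  · intro x hx S hS hSx
    rw [hzi, hr, mul_assoc] at hx
    have hx1 : (w0 * (e0 * r)).1.coeff x ≠ 0 := right_ne_zero_of_mul hx
    have hxC : x ∈ Subgroup.centralizer (S : Set G) := by
      rw [Subgroup.mem_centralizer_iff]
      intro s hs
      exact (Subgroup.mem_centralizer_iff.1 (hSx hs) x rfl).symm
    have h3 : ∃ y ∈ Subgroup.centralizer (S : Set G), w0.1.coeff y ≠ 0 := by
      by_contra hcon
      push Not at hcon
      exact hx1 (vanish (p := p) S hS w0 (e0 * r) hcon x hxC)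
    obtain ⟨y, hyS, hy0⟩ := h3
    have h4 : w0.1.coeff y = if IsConj x0 y then (1 : F) else 0 := coeff_ofF _ y
    rw [h4] at hy0
    have h5 : IsConj x0 y := by
      by_contra hno
      rw [if_neg hno] at hy0
      exact hy0 rfl
    obtain ⟨h, hh⟩ := isConj_iff.1 h5
    have h6 : conjSub h⁻¹ S ≤ Subgroup.centralizer {x0} := by
      intro s hs
      rw [mem_conjSub, inv_inv] at hs
      have h7 := Subgroup.mem_centralizer_iff.1 hyS _ hs
      rw [Subgroup.mem_centralizer_iff]
      intro t ht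
      rw [Set.mem_singleton_iff.1 ht]
      rw [← hh] at h7
      have h8 : h⁻¹ * (h * s * h⁻¹ * (h * x0 * h⁻¹)) * h =
          h⁻¹ * (h * x0 * h⁻¹ * (h * s * h⁻¹)) * h := by rw [h7]
      have h9 : h⁻¹ * (h * s * h⁻¹ * (h * x0 * h⁻¹)) * h = s * x0 := by group
      have h10 : h⁻¹ * (h * x0 * h⁻¹ * (h * s * h⁻¹)) * h = x0 * s := by group
      rw [h9, h10] at h8
      exact h8.symm
    have h7 : IsPGroup p (conjSub h⁻¹ S) := hS.map _
    obtain ⟨g, hg⟩ := subD hD1 hD2 hD3 (conjSub h⁻¹ S) h7 h6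
    exact ⟨g * h⁻¹, by rw [conjSub_mul]; exact hg⟩

end Pool.Agent.N323.AEZE
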