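import Mathlib
import Pool.Agent.N20.DI.Stm
import Pool.Agent.Y63.NV.Infl

/-!
# DI/LIN: characters over a central subgroup which meets the commutator subgroup trivially

`χ = L_λ · inflation of χ'`, where `L_λ` is a linear character which is trivial on `G` and extends
the central character `λ` of the kernel.
-/

set_option autoImplicit false

open scoped Classical

noncomputable section

namespace Pool.Agent.N323.DI

open Pool.Agent.Y63.NV
open Pool.Agent.Y930.NV
open Pool.Agent.Y63.AWC (IsIrreducibleCharacter)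
open Pool.Agent.N20.DI (Kd HasDef Dg S_LIN)

/-- twisting with a linear character -/
theorem irr_twist {J : Type} [Group J] {χ : J → ℂ} (h : IsIrreducibleCharacter χ)
    (L : J →* ℂˣ) : IsIrreducibleCharacter (fun x => ((L x : ℂˣ) : ℂ) * χ x) := by
  obtain ⟨V, i1, i2, i3, ρ, hr, rfl⟩ := h
  let ρ' : Representation ℂ J V :=
    { toFun := fun g => ((L g : ℂˣ) : ℂ) • ρ g
      map_one' := by rw [map_one, map_one, Units.val_one, one_smul]
      map_mul' := fun a b => by
        rw [map_mul, map_mul, Units.val_mul, smul_mul_smul_comm] }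
  have hρ' : ∀ g v, ρ' g v = ((L g : ℂˣ) : ℂ) • ρ g v := fun g v => rfl
  refine ⟨V, i1, i2, i3, ρ', ?_, ?_⟩
  · have e : Subrepresentation ρ' ≃o Subrepresentation ρ :=
      { toFun := fun W => ⟨W.toSubmodule, fun g v hv => by
          have h1 := W.toSubmodule.smul_mem (((L g : ℂˣ) : ℂ)⁻¹) (W.apply_mem_toSubmodule g hv)
          rw [hρ', smul_smul, inv_mul_cancel₀ (Units.ne_zero _), one_smul] at h1
          exact h1⟩
        invFun := fun W => ⟨W.toSubmodule, fun g v hv =>
          W.toSubmodule.smul_mem _ (W.apply_mem_toSubmodule g hv)⟩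
        left_inv := fun W => rfl
        right_inv := fun W => rfl
        map_rel_iff' := Iff.rfl }
    exact (OrderIso.isSimpleOrder_iff e).2 hr
  · funext x
    show ((L x : ℂˣ) : ℂ) * LinearMap.trace ℂ V (ρ x) =
      LinearMap.trace ℂ V (((L x : ℂˣ) : ℂ) • ρ x)
    rw [map_smul, smul_eq_mul]

/-- the central character of an irreducible character on a central subgroup -/
theorem central_char {J : Type} [Group J] [Finite J] {χ : J → ℂ} (h : IsIrreducibleCharacter χ)
    (R : Subgroup J) (hR : R ≤ Subgroup.center J) :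
    ∃ μ : R →* ℂˣ, ∀ (r : R) (x : J), χ ((r : J) * x) = ((μ r : ℂˣ) : ℂ) * χ x := by
  have : Fintype J := Fintype.ofFinite J
  obtain ⟨V, i1, i2, i3, ρ, hr, rfl⟩ := h
  have hnt := Pool.Agent.Y63.AWC.irr_nontrivial ρ hr
  have hc : ∀ r : R, ∃ c : ℂ, ρ (r : J) = c • (1 : Module.End ℂ V) := by
    intro r
    have hcf : Cf (Pi.single (r : J) (1 : ℂ) : J → ℂ) := by
      intro g x
      have hz : g * (r : J) * g⁻¹ = r := by
        have := Subgroup.mem_center_iff.1 (hR r.2) g
        rw [this]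
        group
      by_cases hx : x = r
      · rw [hx, hz]
      · have hx' : g * x * g⁻¹ ≠ r := by
          intro h1
          apply hx
          have h2 : g * x * g⁻¹ = g * (r : J) * g⁻¹ := by rw [h1, hz]
          exact mul_left_cancel (mul_right_cancel h2)
        rw [Pi.single_eq_of_ne hx, Pi.single_eq_of_ne hx']
    obtain ⟨c, hc⟩ := Tp_scalar ρ hr _ hcf
    refine ⟨c, ?_⟩
    rw [← hc]
    unfold Tp
    rw [Finset.sum_eq_single (r : J)]
    · rw [Pi.single_eq_same, one_smul]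
    · intro b _ hb
      rw [Pi.single_eq_of_ne hb, zero_smul]
    · intro h1
      exact absurd (Finset.mem_univ _) h1
  choose c hc using hc
  have hinj : ∀ a b : ℂ, a • (1 : Module.End ℂ V) = b • (1 : Module.End ℂ V) → a = b := by
    intro a b hab
    obtain ⟨v, hv⟩ := exists_ne (0 : V)
    have h2 := LinearMap.congr_fun hab v
    simp only [LinearMap.smul_apply, Module.End.one_apply] at h2
    exact smul_left_injective ℂ hv h2
  let μ₀ : R →* ℂ :=
    { toFun := c
      map_one' := by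
        apply hinj
        rw [← hc, one_smul]
        show ρ ((1 : R) : J) = 1
        rw [Subgroup.coe_one, map_one]
      map_mul' := fun a b => by
        apply hinj
        rw [← hc, Subgroup.coe_mul, map_mul, hc, hc, smul_mul_smul_comm, one_mul] }
  refine ⟨μ₀.toHomUnits, fun r x => ?_⟩
  show LinearMap.trace ℂ V (ρ ((r : J) * x)) = c r * LinearMap.trace ℂ V (ρ x)
  rw [map_mul, hc, smul_mul_assoc, one_mul, map_smul, smul_eq_mul]

/-- extension of linear characters -/
theorem ext_char {J : Type} [Group J] [Finite J] (G : Subgroup J)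
    (hG : ∀ a b : J, a * b * a⁻¹ * b⁻¹ ∈ G) (R : Subgroup J) (hGR : G ⊓ R = ⊥) (μ : R →* ℂˣ) :
    ∃ L : J →* ℂˣ, (∀ g ∈ G, L g = 1) ∧ ∀ r : R, L r = μ r := by
  have hN : G.Normal := by
    refine ⟨fun n hn g => ?_⟩
    have h1 := G.mul_mem (hG g n) hn
    have e : g * n * g⁻¹ * n⁻¹ * n = g * n * g⁻¹ := by group
    rwa [e] at h1
  let _ : CommGroup (J ⧸ G) :=
    { (inferInstance : Group (J ⧸ G)) with
      mul_comm := fun a b => by
        induction a using QuotientGroup.induction_on with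
        | H a =>
        induction b using QuotientGroup.induction_on with
        | H b =>
        rw [← QuotientGroup.mk_mul, ← QuotientGroup.mk_mul, QuotientGroup.eq]
        have h1 := hG b⁻¹ a⁻¹
        have e : b⁻¹ * a⁻¹ * b⁻¹⁻¹ * a⁻¹⁻¹ = (a * b)⁻¹ * (b * a) := by group
        rwa [e] at h1 }
  let φ : R →* J ⧸ G := (QuotientGroup.mk' G).comp R.subtype
  have hφ : Function.Injective φ := by
    rw [injective_iff_map_eq_one]
    intro r hr
    have h1 : ((r : J) : J ⧸ G) = 1 := hr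
    rw [QuotientGroup.eq_one_iff] at h1
    have h2 : (r : J) ∈ G ⊓ R := ⟨h1, r.2⟩
    rw [hGR, Subgroup.mem_bot] at h2
    exact Subtype.ext h2
  let e : R ≃* φ.range := MonoidHom.ofInjective hφ
  obtain ⟨L', hL'⟩ := MonoidHom.domRestrict_surjective (M := ℂ) φ.range
    (μ.comp e.symm.toMonoidHom)
  refine ⟨L'.comp (QuotientGroup.mk' G), fun g hg => ?_, fun r => ?_⟩
  · show L' ((g : J) : J ⧸ G) = 1
    rw [(QuotientGroup.eq_one_iff g).2 hg, map_one]
  · have h1 := DFunLike.congr_fun hL' (e r)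
    have h2 : (μ.comp e.symm.toMonoidHom) (e r) = μ r := by
      show μ (e.symm (e r)) = μ r
      rw [MulEquiv.symm_apply_apply]
    rw [h2] at h1
    exact h1

/-- the number of linear characters of a central subgroup -/
theorem card_lin {J : Type} [Group J] [Finite J] (R : Subgroup J)
    (hR : R ≤ Subgroup.center J) : Nat.card (R →* ℂˣ) = Nat.card R := by
  let _ : CommGroup R :=
    { (inferInstance : Group R) with
      mul_comm := fun a b => Subtype.ext (Subgroup.mem_center_iff.1 (hR b.2) a) }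
  exact CommGroup.card_monoidHom_of_hasEnoughRootsOfUnity R ℂ

/-- twisting does not change the central character on functions supported by `G` -/
theorem cv_twist {F : Type} [Field F] (red : integralClosure ℤ ℂ →+* F) {J : Type} [Group J]
    (G : Subgroup J) (z : J → F) (hz : ∀ x, x ∉ G → z x = 0) (L : J →* ℂˣ)
    (hL : ∀ g ∈ G, L g = 1) (χ : J → ℂ) :
    centralValue red (fun x => ((L x : ℂˣ) : ℂ) * χ x) z = centralValue red χ z := by
  unfold centralValue
  refine finsum_congr fun C => ?_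
  by_cases hC : C.out ∈ G
  · have e1 : (fun x => ((L x : ℂˣ) : ℂ) * χ x) C.out = χ C.out := by
      show ((L C.out : ℂˣ) : ℂ) * χ C.out = χ C.out
      rw [hL _ hC, Units.val_one, one_mul]
    have e2 : (fun x => ((L x : ℂˣ) : ℂ) * χ x) 1 = χ 1 := by
      show ((L 1 : ℂˣ) : ℂ) * χ 1 = χ 1
      rw [map_one, Units.val_one, one_mul]
    rw [e1, e2]
  · rw [hz _ hC, zero_mul, zero_mul]

/-- deflation along a surjective homomorphism -/
theorem deflate' {J K : Type} [Group J] [Group K] [Finite J] (π : J →* K)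
    (hπ : Function.Surjective π) {χ : J → ℂ} (h : IsIrreducibleCharacter χ)
    (hinf : ∀ q ∈ π.ker, ∀ x : J, χ (q * x) = χ x) :
    ∃ χ' : K → ℂ, IsIrreducibleCharacter χ' ∧ ∀ x : J, χ x = χ' (π x) := by
  obtain ⟨χ', h1, h2⟩ := deflate π.ker h hinf
  let e := QuotientGroup.quotientKerEquivOfSurjective π hπ
  refine ⟨fun y => χ' (e.symm y), irr_inflate e.symm.toMonoidHom e.symm.surjective h1,
    fun x => ?_⟩
  rw [h2 x]
  congr 1
  rw [MulEquiv.eq_symm_apply]
  rfl

/-- LIN -/
theorem LIN : S_LIN := by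
  intro p F _ red J K _ _ _ _ π hπ hker G hG hcomm m hp hm z hz hzG c D
  have h1K : 0 < Nat.card K := Nat.card_pos
  have hcard : Nat.card J = Nat.card K * p ^ m := by
    rw [Subgroup.card_eq_card_quotient_mul_card_subgroup π.ker, hm]
    congr 1
    exact Nat.card_congr (QuotientGroup.quotientKerEquivOfSurjective π hπ).toEquiv
  have hfac : (Nat.card J).factorization p = (Nat.card K).factorization p + m := by
    rw [hcard, Nat.factorization_mul h1K.ne' (pow_ne_zero _ hp.ne_zero), Finsupp.add_apply,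
      hp.factorization_pow, Finsupp.single_eq_same]
  choose L hLG hLR using ext_char G hcomm π.ker hG
  unfold Kd
  rw [← hm, ← card_lin π.ker hker, ← Nat.card_prod]
  symm
  have hdef : ∀ (χ' : K → ℂ) (χ : J → ℂ), χ 1 = χ' 1 → (HasDef p (D + m) χ ↔ HasDef p D χ') := by
    intro χ' χ h1
    unfold HasDef Dg
    rw [hfac, h1]
    constructor
    · rintro ⟨n, hn, hn'⟩
      exact ⟨n, hn, by omega⟩
    · rintro ⟨n, hn, hn'⟩
      exact ⟨n, hn, by omega⟩
  have hmem : ∀ (μ : π.ker →* ℂˣ) (χ' : K → ℂ), IsIrreducibleCharacter χ' → HasDef p D χ' →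
      centralValue red χ' (fun y : K => ∑ᶠ x : J, if π x = y then z x else 0) = c →
      IsIrreducibleCharacter (fun x : J => ((L μ x : ℂˣ) : ℂ) * χ' (π x)) ∧
      HasDef p (D + m) (fun x : J => ((L μ x : ℂˣ) : ℂ) * χ' (π x)) ∧
      centralValue red (fun x : J => ((L μ x : ℂˣ) : ℂ) * χ' (π x)) z = c := by
    intro μ χ' h1 h2 h3
    refine ⟨irr_twist (irr_inflate π hπ h1) (L μ), ?_, ?_⟩
    · refine (hdef χ' _ ?_).2 h2
      rw [map_one, map_one, Units.val_one, one_mul]
    · rw [cv_twist red G z hzG (L μ) (hLG μ) (fun x => χ' (π x)), inf F red J K π χ' z hπ h1 hz]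
      exact h3
  refine Nat.card_congr (Equiv.ofBijective
    (fun t : (π.ker →* ℂˣ) × {χ' : K → ℂ // IsIrreducibleCharacter χ' ∧ HasDef p D χ' ∧
      centralValue red χ' (fun y : K => ∑ᶠ x : J, if π x = y then z x else 0) = c} =>
      (⟨fun x : J => ((L t.1 x : ℂˣ) : ℂ) * t.2.1 (π x),
        hmem t.1 t.2.1 t.2.2.1 t.2.2.2.1 t.2.2.2.2⟩ :
        {χ : J → ℂ // IsIrreducibleCharacter χ ∧ HasDef p (D + m) χ ∧
          centralValue red χ z = c})) ⟨?_, ?_⟩)
  · rintro ⟨μ, χ, hχ⟩ ⟨ν, ψ, hψ⟩ heq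
    have h0 := congrArg Subtype.val heq
    have h1 : ∀ x : J, ((L μ x : ℂˣ) : ℂ) * χ (π x) = ((L ν x : ℂˣ) : ℂ) * ψ (π x) :=
      fun x => congrFun h0 x
    have h2 : χ 1 = ψ 1 := by
      have := h1 1
      rwa [map_one, map_one, map_one, Units.val_one, one_mul, one_mul] at this
    have h3 : χ 1 ≠ 0 := by
      have : Fintype K := Fintype.ofFinite K
      exact irr_one_ne hχ.1
    have h4 : μ = ν := by
      ext r
      have h5 := h1 (r : J)
      have h6 : π (r : J) = 1 := r.2
      rw [h6, hLR, hLR, ← h2] at h5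
      exact mul_right_cancel₀ h3 h5
    subst h4
    have h5 : χ = ψ := by
      funext y
      obtain ⟨x, rfl⟩ := hπ y
      exact mul_left_cancel₀ (Units.ne_zero _) (h1 x)
    subst h5
    rfl
  · rintro ⟨χ, hχ1, hχ2, hχ3⟩
    obtain ⟨μ, hμ⟩ := central_char hχ1 π.ker hker
    obtain ⟨ψ, hψ⟩ : ∃ ψ : J → ℂ, ψ = fun x => (((L μ)⁻¹ x : ℂˣ) : ℂ) * χ x := ⟨_, rfl⟩
    have hψirr : IsIrreducibleCharacter ψ := by
      rw [hψ]
      exact irr_twist hχ1 (L μ)⁻¹
    have hχψ : ∀ x, χ x = ((L μ x : ℂˣ) : ℂ) * ψ x := by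
      intro x
      rw [hψ]
      show χ x = ((L μ x : ℂˣ) : ℂ) * (((L μ)⁻¹ x : ℂˣ) * χ x)
      rw [MonoidHom.inv_apply, ← mul_assoc, Units.mul_inv, one_mul]
    have hψinf : ∀ q ∈ π.ker, ∀ x : J, ψ (q * x) = ψ x := by
      intro q hq x
      have h1 := hμ ⟨q, hq⟩ x
      have h2 := hLR μ ⟨q, hq⟩
      rw [hψ]
      show (((L μ)⁻¹ (q * x) : ℂˣ) : ℂ) * χ (q * x) = (((L μ)⁻¹ x : ℂˣ) : ℂ) * χ x
      have h1' : χ (q * x) = ((μ ⟨q, hq⟩ : ℂˣ) : ℂ) * χ x := h1
      have h2' : L μ q = μ ⟨q, hq⟩ := h2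
      rw [h1', map_mul, MonoidHom.inv_apply, MonoidHom.inv_apply, h2', Units.val_mul]
      have h3 : (((μ ⟨q, hq⟩)⁻¹ : ℂˣ) : ℂ) * ((μ ⟨q, hq⟩ : ℂˣ) : ℂ) = 1 := Units.inv_mul _
      linear_combination (((L μ x)⁻¹ : ℂˣ) : ℂ) * χ x * h3
    obtain ⟨χ', h1, h2⟩ := deflate' π hπ hψirr hψinf
    have hχχ' : χ = fun x : J => ((L μ x : ℂˣ) : ℂ) * χ' (π x) := by
      funext x
      rw [hχψ x, h2 x]
    have h4 : HasDef p D χ' := by
      refine (hdef χ' χ ?_).1 hχ2
      rw [hχχ']
      show ((L μ 1 : ℂˣ) : ℂ) * χ' (π 1) = χ' 1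
      rw [map_one, map_one, Units.val_one, one_mul]
    have h5 : centralValue red χ' (fun y : K => ∑ᶠ x : J, if π x = y then z x else 0) = c := by
      rw [← hχ3, hχχ', cv_twist red G z hzG (L μ) (hLG μ) (fun x => χ' (π x)),
        inf F red J K π χ' z hπ h1 hz]
    exact ⟨⟨μ, ⟨χ', h1, h4, h5⟩⟩, Subtype.ext hχχ'.symm⟩

end Pool.Agent.N323.DI
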