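import Pool.Agent.N988.ET.Stm
import Pool.Agent.N530.EP_LAW

/-!
# Project ET (helper988), part PROD: product formulas
-/

set_option autoImplicit false

open MeasureTheory Set
open Pool.Agent.N988.EA Pool.Agent.N988.EC Pool.Agent.N988.EP Pool.Agent.N988.ES
open Pool.Agent.N988.ET

namespace Pool.Agent.N323.ET

noncomputable section

open Pool.Agent.N530.EP (mp_halves meas_set meas_set2 prod_prod)

/-- the halves -/
def hv {b n : ℕ} (w : Edge b (n + 1) → Bool) (i : Fin b) :
    (Edge b n → Bool) × (Edge b n → Bool) :=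
  ((fun e => w (i, false, e) : Edge b n → Bool), (fun e => w (i, true, e) : Edge b n → Bool))

/-- the branches are independent -/
theorem real_pi (ν : Measure Bool) [IsProbabilityMeasure ν] {b n : ℕ}
    (S : Fin b → Set ((Edge b n → Bool) × (Edge b n → Bool))) :
    (iid ν b (n + 1)).real (hv ⁻¹' (Set.pi univ S)) =
      ∏ i, ((iid ν b n).prod (iid ν b n)).real (S i) := by
  have h1 := mp_halves ν k_CUR b n
  have h2 : (iid ν b (n + 1)) (hv ⁻¹' (Set.pi univ S)) =
      ∏ i, ((iid ν b n).prod (iid ν b n)) (S i) := by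
    rw [← Measure.pi_pi]
    exact h1.measure_preimage (MeasurableSet.univ_pi fun _ => meas_set2 _).nullMeasurableSet
  rw [measureReal_def, h2, ENNReal.toReal_prod]
  rfl

/-- the revealed states -/
def G {b n : ℕ} (a : Edge b n → Option Bool) : Set (Edge b n → Bool) := {w | Fits a w}

/-- the revealed states and the crossing -/
def X {b n : ℕ} (a : Edge b n → Option Bool) : Set (Edge b n → Bool) :=
  {w | Fits a w ∧ cross w = 1}

/-- the revealed states and the pivotality -/
def V {b n : ℕ} (a : Edge b n → Option Bool) (e : Edge b n) : Set (Edge b n → Bool) :=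
  {w | Fits a w ∧ e ∈ piv w}

theorem X_sub {b n : ℕ} (a : Edge b n → Option Bool) : X a ⊆ G a := fun _ h => h.1

/-- the branch `i` is not crossed -/
def D {b n : ℕ} (a : Edge b (n + 1) → Option Bool) (i : Fin b) :
    Set ((Edge b n → Bool) × (Edge b n → Bool)) :=
  (G (cs a i false) ×ˢ G (cs a i true)) \ (X (cs a i false) ×ˢ X (cs a i true))

theorem fits_iff {b n : ℕ} (a : Edge b (n + 1) → Option Bool) (w : Edge b (n + 1) → Bool) :
    Fits a w ↔ ∀ i, Fits (cs a i false) (hv w i).1 ∧ Fits (cs a i true) (hv w i).2 := by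
  constructor
  · intro h i
    exact ⟨fun e x he => h (i, false, e) x he, fun e x he => h (i, true, e) x he⟩
  · rintro h ⟨i, s, e⟩ x he
    cases s
    · exact (h i).1 e x he
    · exact (h i).2 e x he

theorem real_D {b n : ℕ} (p : ℝ) (a : Edge b (n + 1) → Option Bool) (i : Fin b)
    [IsProbabilityMeasure (coin (1 - p))] :
    ((iid (coin (1 - p)) b n).prod (iid (coin (1 - p)) b n)).real (D a i) =
      pf p (cs a i false) * pf p (cs a i true) - px p (cs a i false) * px p (cs a i true) := by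
  unfold D
  rw [measureReal_sdiff (prod_mono (X_sub _) (X_sub _)) (meas_set2 _), prod_prod, prod_prod]
  rfl

theorem G_eq {b n : ℕ} (a : Edge b (n + 1) → Option Bool) :
    G a = hv ⁻¹' (Set.pi univ fun i => G (cs a i false) ×ˢ G (cs a i true)) := by
  ext w
  rw [mem_preimage, mem_univ_pi]
  exact fits_iff a w

theorem X_eq (hP : S_PIV) {b n : ℕ} (hb : 1 ≤ b) (a : Edge b (n + 1) → Option Bool) :
    X a = G a \ hv ⁻¹' (Set.pi univ (D a)) := by
  obtain ⟨-, -, hc, -⟩ := hP b hb
  ext w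
  rw [mem_sdiff, mem_preimage, mem_univ_pi]
  constructor
  · rintro ⟨h1, h2⟩
    refine ⟨h1, fun h3 => ?_⟩
    obtain ⟨i, h4, h5⟩ := (hc n w).1 h2
    have h6 := (fits_iff a w).1 h1 i
    exact (h3 i).2 ⟨⟨h6.1, h4⟩, ⟨h6.2, h5⟩⟩
  · rintro ⟨h1, h2⟩
    refine ⟨h1, (hc n w).2 ?_⟩
    by_contra h3
    push Not at h3
    apply h2
    intro i
    have h6 := (fits_iff a w).1 h1 i
    exact ⟨⟨h6.1, h6.2⟩, fun h7 => h3 i h7.1.2 h7.2.2⟩

/-- the set of the branch `i` if an edge of its half `s` is pivotal -/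
def W {b n : ℕ} (a : Edge b (n + 1) → Option Bool) (i : Fin b) (s : Bool) (e : Edge b n) :
    Set ((Edge b n → Bool) × (Edge b n → Bool)) :=
  if s then X (cs a i false) ×ˢ V (cs a i true) e else V (cs a i false) e ×ˢ X (cs a i true)

theorem real_W {b n : ℕ} (p : ℝ) (a : Edge b (n + 1) → Option Bool) (i : Fin b) (s : Bool)
    (e : Edge b n) [IsProbabilityMeasure (coin (1 - p))] :
    ((iid (coin (1 - p)) b n).prod (iid (coin (1 - p)) b n)).real (W a i s e) =
      pp p (cs a i s) e * px p (cs a i (!s)) := by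
  cases s
  · simp only [W, Bool.false_eq_true, if_false, prod_prod]
    rfl
  · simp only [W, if_true, prod_prod]
    rw [mul_comm]
    rfl

theorem V_eq (hP : S_PIV) {b n : ℕ} (hb : 1 ≤ b) (a : Edge b (n + 1) → Option Bool) (i : Fin b)
    (s : Bool) (e : Edge b n) :
    V a ((i, s, e) : Edge b (n + 1)) =
      hv ⁻¹' (Set.pi univ fun j => if j = i then W a i s e else D a j) := by
  obtain ⟨-, -, -, hp⟩ := hP b hb
  ext w
  rw [mem_preimage, mem_univ_pi]
  constructor
  · rintro ⟨h1, h2⟩ j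
    obtain ⟨h3, h4, h5⟩ := (hp n w i s e).1 h2
    have h6 := (fits_iff a w).1 h1
    by_cases hj : j = i
    · subst hj
      rw [if_pos rfl]
      cases s
      · exact ⟨⟨(h6 j).1, h3⟩, ⟨(h6 j).2, h4⟩⟩
      · exact ⟨⟨(h6 j).1, h4⟩, ⟨(h6 j).2, h3⟩⟩
    · rw [if_neg hj]
      exact ⟨⟨(h6 j).1, (h6 j).2⟩, fun h7 => h5 j hj ⟨h7.1.2, h7.2.2⟩⟩
  · intro h
    have hi := h i
    rw [if_pos rfl] at hi
    have hj : ∀ j, j ≠ i → hv w j ∈ D a j := by
      intro j hj
      have h7 := h j
      rwa [if_neg hj] at h7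
    have hi1 : Fits (cs a i false) (hv w i).1 ∧ Fits (cs a i true) (hv w i).2 := by
      cases s
      · exact ⟨hi.1.1, hi.2.1⟩
      · exact ⟨hi.1.1, hi.2.1⟩
    have hi2 : e ∈ piv (sub w i s) ∧ cross (sub w i (!s)) = 1 := by
      cases s
      · exact ⟨hi.1.2, hi.2.2⟩
      · exact ⟨hi.2.2, hi.1.2⟩
    refine ⟨(fits_iff a w).2 fun j => ?_, (hp n w i s e).2 ⟨hi2.1, hi2.2, fun j hji h8 => ?_⟩⟩
    · by_cases hji : j = i
      · rw [hji]
        exact hi1
      · exact ⟨(hj j hji).1.1, (hj j hji).1.2⟩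
    · have h9 := hj j hji
      exact h9.2 ⟨⟨h9.1.1, h8.1⟩, ⟨h9.1.2, h8.2⟩⟩

/-- M2: product formulas. -/
theorem t_PROD (h : S_PIV) : S_PROD := by
  intro b n hb p hp0 hp1 a
  have : IsProbabilityMeasure (coin (1 - p)) := coin_prob (by linarith) (by linarith)
  have h1 : pf p a = ∏ i, (pf p (cs a i false) * pf p (cs a i true)) := by
    have h2 : pf p a = (iid (coin (1 - p)) b (n + 1)).real (G a) := rfl
    rw [h2, G_eq, real_pi]
    refine Finset.prod_congr rfl fun i _ => ?_
    rw [prod_prod]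
    rfl
  refine ⟨h1, ?_, fun i s e => ?_⟩
  · have h2 : px p a = (iid (coin (1 - p)) b (n + 1)).real (X a) := rfl
    have h3 : hv ⁻¹' (Set.pi univ (D a)) ⊆ G a := by
      rw [G_eq]
      intro w hw i hi
      exact (hw i hi).1
    rw [h2, X_eq h hb, measureReal_sdiff h3 (meas_set _), real_pi]
    have h4 : (iid (coin (1 - p)) b (n + 1)).real (G a) = pf p a := rfl
    rw [h4, h1]
    congr 1
    refine Finset.prod_congr rfl fun i _ => ?_
    exact real_D p a i
  · have h2 : pp p a ((i, s, e) : Edge b (n + 1)) =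
        (iid (coin (1 - p)) b (n + 1)).real (V a ((i, s, e) : Edge b (n + 1))) := rfl
    rw [h2, V_eq h hb, real_pi, ← Finset.mul_prod_erase Finset.univ _ (Finset.mem_univ i),
      if_pos rfl, real_W]
    congr 1
    refine Finset.prod_congr rfl fun j hj => ?_
    rw [if_neg (Finset.ne_of_mem_erase hj)]
    exact real_D p a j

end

end Pool.Agent.N323.ET
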