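import Pool.Agent.N699.PC.Stm

/-! Project Q3 (helper699), leaf PARA: the partial theta function, by helper323. -/

set_option autoImplicit false

namespace Pool.Agent.N323.Q3

open Finset PowerSeries Pool.Agent.N699.PC

theorem A_succ (k n : ℕ) : A k (n + 1) =
    X ^ (2 * k) * (1 + X ^ (2 * k + 2)) - X ^ (6 * k + 6) * A (k + 2) n := by
  unfold A
  rw [Finset.sum_range_succ', Finset.mul_sum]
  have h1 : ∀ s : ℕ, (-1 : ℤ⟦X⟧) ^ (s + 1) *
      X ^ (2 * (3 * (s + 1) ^ 2 + 2 * (s + 1) + k * (3 * (s + 1) + 1))) *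
        (1 + X ^ (2 * (2 * (s + 1) + 1 + k))) =
      -(X ^ (6 * k + 6) * ((-1 : ℤ⟦X⟧) ^ s *
        X ^ (2 * (3 * s ^ 2 + 2 * s + (k + 2) * (3 * s + 1))) *
          (1 + X ^ (2 * (2 * s + 1 + (k + 2)))))) := by
    intro s
    have e1 : 2 * (3 * (s + 1) ^ 2 + 2 * (s + 1) + k * (3 * (s + 1) + 1)) =
        (6 * k + 6) + 2 * (3 * s ^ 2 + 2 * s + (k + 2) * (3 * s + 1)) := by ring
    have e2 : 2 * (2 * (s + 1) + 1 + k) = 2 * (2 * s + 1 + (k + 2)) := by ring
    rw [e1, e2, pow_add, pow_succ]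
    ring
  rw [Finset.sum_congr rfl fun s _ => h1 s, Finset.sum_neg_distrib]
  have e3 : 2 * (3 * 0 ^ 2 + 2 * 0 + k * (3 * 0 + 1)) = 2 * k := by ring
  have e4 : 2 * (2 * 0 + 1 + k) = 2 * k + 2 := by ring
  rw [e3, e4, pow_zero]
  ring

theorem t_PARA : Pool.Agent.N699.PC.PARA := by
  intro hR hS hL n
  induction n with
  | zero =>
    intro k M _
    rw [pow_zero]
    exact one_dvd _
  | succ n ih =>
    intro k M hM
    have h1 := hR k M (by omega)
    have h2 := hS M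
    have h3 := hL (k + 1) M (by omega)
    have h4 := ih (k + 2) M (by omega)
    have e1 : M - (k + 1) = M - k - 1 := by omega
    rw [e1, ← add_assoc] at h3
    have h5 : ee M * pp M * F k M - A k (n + 1) =
        X ^ (2 * k) * (1 + X ^ (2 * k + 2)) *
          (ee (2 * M) * ee M * iv (ee (M - k - 1)) * iv (ee (M + k + 1)) - 1) -
        X ^ (6 * k + 6) * (ee M * pp M * F (k + 2) M - A (k + 2) n) := by
      have h6 : F k M = X ^ (2 * k) * (1 + X ^ (2 * k + 2)) * ee M * OO M *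
          iv (ee (M - k - 1)) * iv (ee (M + k + 1)) - X ^ (6 * k + 6) * F (k + 2) M :=
        eq_sub_of_add_eq h1
      rw [A_succ, h6, ← h2]
      ring
    rw [h5]
    refine dvd_sub ?_ ?_
    · refine Dvd.dvd.mul_left ?_ _
      exact (pow_dvd_pow X (by omega)).trans h3
    · have h7 : (X : ℤ⟦X⟧) ^ (n + 1) = X * X ^ n := pow_succ' X n
      rw [h7]
      refine mul_dvd_mul ?_ h4
      exact dvd_pow_self X (by omega)

end Pool.Agent.N323.Q3
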