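import Mathlib

/-!
# Project TC, leaf TJ: `T`-joins exist
-/

set_option autoImplicit false

namespace Pool.Agent.N323.TCTJOIN

open Finset

/-- exclusive or -/
def XX (a b : Prop) : Prop := (a ∧ ¬ b) ∨ (b ∧ ¬ a)

theorem odd_toggle {V : Type} [Finite V] (S : Set V) (c : V) :
    Odd {y | XX (y ∈ S) (y = c)}.ncard ↔ ¬ Odd S.ncard := by
  classical
  have hS : S.Finite := Set.toFinite S
  by_cases hc : c ∈ S
  · have h1 : {y | XX (y ∈ S) (y = c)} = S \ {c} := by
      ext y
      simp only [Set.mem_ofPred_eq, Set.mem_sdiff, Set.mem_singleton_iff, XX]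
      constructor
      · rintro (⟨h, h'⟩ | ⟨h, h'⟩)
        · exact ⟨h, h'⟩
        · subst h; exact absurd hc h'
      · rintro ⟨h, h'⟩
        exact Or.inl ⟨h, h'⟩
    have h2 := Set.ncard_sdiff_singleton_add_one hc hS
    rw [h1, ← h2, Nat.odd_add_one, not_not]
  · have h1 : {y | XX (y ∈ S) (y = c)} = insert c S := by
      ext y
      simp only [Set.mem_ofPred_eq, Set.mem_insert_iff, XX]
      constructor
      · rintro (⟨h, h'⟩ | ⟨h, h'⟩)
        · exact Or.inr h
        · exact Or.inl h
      · rintro (h | h)
        · subst h; exact Or.inr ⟨rfl, hc⟩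
        · refine Or.inl ⟨h, ?_⟩
          rintro rfl
          exact hc h
    rw [h1, Set.ncard_insert_of_notMem hc hS, Nat.odd_add_one]

theorem toggle {V : Type} [Finite V] (H J : SimpleGraph V) (hJ : J ≤ H) (a b : V)
    (hab : H.Adj a b) :
    ∃ J' : SimpleGraph V, J' ≤ H ∧ ∀ x, Odd (J'.neighborSet x).ncard ↔
      XX (Odd (J.neighborSet x).ncard) (XX (x = a) (x = b)) := by
  have hne : a ≠ b := hab.ne
  let J' : SimpleGraph V :=
    { Adj := fun x y => XX (J.Adj x y) (s(x, y) = s(a, b))
      symm := ⟨by
        intro x y h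
        rw [Sym2.eq_swap (a := y) (b := x), J.adj_comm y x]
        exact h⟩
      loopless := ⟨by
        intro x h
        rcases h with ⟨h, -⟩ | ⟨h, -⟩
        · exact J.loopless.irrefl x h
        · rw [Sym2.eq_iff] at h
          rcases h with ⟨h1, h2⟩ | ⟨h1, h2⟩
          · exact hne (h1.symm.trans h2)
          · exact hne (h2.symm.trans h1)⟩ }
  refine ⟨J', ?_, ?_⟩
  · intro x y h
    rcases h with ⟨h, -⟩ | ⟨h, -⟩
    · exact hJ h
    · rw [Sym2.eq_iff] at h
      rcases h with ⟨h1, h2⟩ | ⟨h1, h2⟩
      · rw [h1, h2]; exact hab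
      · rw [h1, h2]; exact hab.symm
  · intro x
    by_cases hxa : x = a
    · have hxb : x ≠ b := fun h => hne (hxa.symm.trans h)
      have h1 : J'.neighborSet x = {y | XX (y ∈ J.neighborSet x) (y = b)} := by
        ext y
        have h2 : s(x, y) = s(a, b) ↔ y = b := by
          rw [Sym2.eq_iff]
          constructor
          · rintro (⟨-, h⟩ | ⟨h, h'⟩)
            · exact h
            · exact absurd h hxb
          · intro h
            exact Or.inl ⟨hxa, h⟩
        change XX (J.Adj x y) (s(x, y) = s(a, b)) ↔ XX (J.Adj x y) (y = b)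
        rw [h2]
      rw [h1, odd_toggle]
      simp [XX, hxa, hne]
    · by_cases hxb : x = b
      · have h1 : J'.neighborSet x = {y | XX (y ∈ J.neighborSet x) (y = a)} := by
          ext y
          have h2 : s(x, y) = s(a, b) ↔ y = a := by
            rw [Sym2.eq_iff]
            constructor
            · rintro (⟨h, -⟩ | ⟨-, h'⟩)
              · exact absurd h hxa
              · exact h'
            · intro h
              exact Or.inr ⟨hxb, h⟩
          change XX (J.Adj x y) (s(x, y) = s(a, b)) ↔ XX (J.Adj x y) (y = a)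
          rw [h2]
        rw [h1, odd_toggle]
        simp [XX, hxb, hne.symm]
      · have h1 : J'.neighborSet x = J.neighborSet x := by
          ext y
          have h2 : ¬ s(x, y) = s(a, b) := by
            rw [Sym2.eq_iff]
            rintro (⟨h, -⟩ | ⟨h, -⟩)
            · exact hxa h
            · exact hxb h
          change XX (J.Adj x y) (s(x, y) = s(a, b)) ↔ J.Adj x y
          simp [XX, h2]
        rw [h1]
        simp [XX, hxa, hxb]

theorem xor_aux (p a b c : Prop) (hab : ¬ (a ∧ b) ∨ True) :
    XX (XX p (XX a b)) (XX b c) ↔ XX p (XX a c) := by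
  unfold XX
  by_cases hp : p <;> by_cases ha : a <;> by_cases hb : b <;> by_cases hc : c <;>
    simp [hp, ha, hb, hc]

theorem walk_toggle {V : Type} [Finite V] (H : SimpleGraph V) {v w : V} (P : H.Walk v w) :
    ∀ J : SimpleGraph V, J ≤ H →
    ∃ J' : SimpleGraph V, J' ≤ H ∧ ∀ x, Odd (J'.neighborSet x).ncard ↔
      XX (Odd (J.neighborSet x).ncard) (XX (x = v) (x = w)) := by
  induction P with
  | nil =>
    intro J hJ
    refine ⟨J, hJ, fun x => ?_⟩
    simp [XX]
  | cons h p ih =>
    intro J hJ
    obtain ⟨J1, hJ1, h1⟩ := toggle H J hJ _ _ h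
    obtain ⟨J2, hJ2, h2⟩ := ih J1 hJ1
    refine ⟨J2, hJ2, fun x => ?_⟩
    rw [h2 x, h1 x]
    exact xor_aux _ _ _ _ (Or.inr trivial)

theorem tjoin {V : Type} [Fintype V] (H : SimpleGraph V) (T : Set V)
    (hT : ∀ C : H.ConnectedComponent, Even (T ∩ C.supp).ncard) :
    ∃ J : SimpleGraph V, J ≤ H ∧ ∀ v, Odd (J.neighborSet v).ncard ↔ v ∈ T := by
  obtain ⟨n, hn⟩ : ∃ n, T.ncard = n := ⟨_, rfl⟩
  induction n using Nat.strong_induction_on generalizing T with
  | _ n ih =>
    rcases T.eq_empty_or_nonempty with h0 | ⟨v, hv⟩
    · refine ⟨⊥, bot_le, fun v => ?_⟩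
      have h1 : (⊥ : SimpleGraph V).neighborSet v = ∅ := by
        ext y; simp
      rw [h1, h0]
      simp
    · have hfin : ∀ S : Set V, S.Finite := fun S => Set.toFinite S
      have hvC : v ∈ T ∩ (H.connectedComponentMk v).supp := ⟨hv, rfl⟩
      have hE := hT (H.connectedComponentMk v)
      have hpos : 0 < (T ∩ (H.connectedComponentMk v).supp).ncard :=
        (Set.ncard_pos (hfin _)).2 ⟨v, hvC⟩
      have h2 : 1 < (T ∩ (H.connectedComponentMk v).supp).ncard := by
        obtain ⟨k, hk⟩ := hE
        omega
      obtain ⟨w, hw, hwv⟩ := Set.exists_ne_of_one_lt_ncard h2 v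
      have hvw : H.Reachable v w := by
        have h3 : H.connectedComponentMk w = H.connectedComponentMk v := hw.2
        exact (SimpleGraph.ConnectedComponent.exact h3).symm
      have hT' : ∀ C : H.ConnectedComponent, Even ((T \ {v, w}) ∩ C.supp).ncard := by
        intro C
        by_cases hC : C = H.connectedComponentMk v
        · subst hC
          have e : T ∩ (H.connectedComponentMk v).supp =
              insert v (insert w ((T \ {v, w}) ∩ (H.connectedComponentMk v).supp)) := by
            ext y
            simp only [Set.mem_inter_iff, Set.mem_insert_iff, Set.mem_sdiff, Set.mem_singleton_iff]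
            constructor
            · rintro ⟨h4, h5⟩
              by_cases h6 : y = v
              · exact Or.inl h6
              · by_cases h7 : y = w
                · exact Or.inr (Or.inl h7)
                · exact Or.inr (Or.inr ⟨⟨h4, fun h => h.elim h6 h7⟩, h5⟩)
            · rintro (h | h | ⟨⟨h, -⟩, h'⟩)
              · subst h; exact hvC
              · subst h; exact hw
              · exact ⟨h, h'⟩
          have n1 : w ∉ (T \ {v, w}) ∩ (H.connectedComponentMk v).supp := by
            rintro ⟨⟨-, h⟩, -⟩
            exact h (by simp)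
          have n2 : v ∉ insert w ((T \ {v, w}) ∩ (H.connectedComponentMk v).supp) := by
            rintro (h | ⟨⟨-, h⟩, -⟩)
            · exact hwv h.symm
            · exact h (by simp)
          have hE' := hT (H.connectedComponentMk v)
          rw [e, Set.ncard_insert_of_notMem n2 (hfin _), Set.ncard_insert_of_notMem n1 (hfin _)]
            at hE'
          obtain ⟨k, hk⟩ := hE'
          exact ⟨k - 1, by omega⟩
        · have e : (T \ {v, w}) ∩ C.supp = T ∩ C.supp := by
            ext y
            simp only [Set.mem_inter_iff, Set.mem_sdiff, Set.mem_insert_iff,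
              Set.mem_singleton_iff]
            constructor
            · rintro ⟨⟨h, -⟩, h'⟩
              exact ⟨h, h'⟩
            · rintro ⟨h, h'⟩
              refine ⟨⟨h, ?_⟩, h'⟩
              rintro (rfl | rfl)
              · exact hC (h' : H.connectedComponentMk y = C).symm
              · exact hC ((h' : H.connectedComponentMk y = C).symm.trans hw.2)
          rw [e]
          exact hT C
      have hlt : (T \ {v, w}).ncard < n := by
        rw [← hn]
        apply Set.ncard_lt_ncard _ (hfin _)
        refine ⟨Set.sdiff_subset, fun h => ?_⟩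
        have := h hv
        exact this.2 (by simp)
      obtain ⟨J, hJ, h1⟩ := ih _ hlt (T \ {v, w}) hT' rfl
      obtain ⟨P⟩ := hvw
      obtain ⟨J', hJ', h3⟩ := walk_toggle H P J hJ
      refine ⟨J', hJ', fun x => ?_⟩
      rw [h3 x, h1 x]
      simp only [XX, Set.mem_sdiff, Set.mem_insert_iff, Set.mem_singleton_iff]
      have hwT : w ∈ T := hw.1
      by_cases hxv : x = v
      · subst hxv
        simp [hv, hwv.symm]
      · by_cases hxw : x = w
        · subst hxw
          simp [hwT, hwv]
        · simp [hxv, hxw]

end Pool.Agent.N323.TCTJOIN
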